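import Mathlib

set_option autoImplicit false

namespace Pool.Agent.Results.MP_f151b7_co.Star

/-- the star with `m` leaves, centre `none` -/
def star (m : ℕ) : SimpleGraph (Option (Fin m)) where
  Adj a b := (a = none ∧ b ≠ none) ∨ (b = none ∧ a ≠ none)
  symm := ⟨fun _ _ h => h.symm⟩
  loopless := ⟨fun a h => by rcases h with h | h <;> exact h.2 h.1⟩

theorem inj (m : ℕ) : Function.Injective (fun j : Fin m => s((none : Option (Fin m)), some j)) := by
  intro a b h
  simpa using h

theorem edgeSet_star (m : ℕ) :
    (star m).edgeSet = (fun j : Fin m => s((none : Option (Fin m)), some j)) '' Set.univ := by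
  ext e
  induction e using Sym2.ind with
  | _ a b =>
    simp only [SimpleGraph.mem_edgeSet, star, Set.image_univ, Set.mem_range]
    cases a <;> cases b <;> simp

theorem meet_star (m k : ℕ) (c : Option (Fin m) → Fin k) (i : Fin k) (hi : i ≠ c none) :
    {e ∈ (star m).edgeSet | ∃ v ∈ e, c v = i}
      = (fun j : Fin m => s((none : Option (Fin m)), some j)) '' {j | c (some j) = i} := by
  rw [edgeSet_star]
  ext e
  constructor
  · rintro ⟨⟨j, _, rfl⟩, v, hv, hc⟩
    refine ⟨j, ?_, rfl⟩
    simp only [Sym2.mem_iff] at hv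
    rcases hv with rfl | rfl
    · exact absurd hc.symm hi
    · exact hc
  · rintro ⟨j, hj, rfl⟩
    exact ⟨⟨j, trivial, rfl⟩, some j, by simp, hj⟩

theorem result : ∀ k : ℕ, 3 ≤ k →
    ∃ (V : Type) (_ : Fintype V) (G : SimpleGraph V),
      k.choose 2 ≤ G.edgeSet.ncard ∧
      ∀ c : V → Fin k, ∃ i : Fin k,
        (({e ∈ G.edgeSet | ∃ v ∈ e, c v = i}.ncard : ℕ) : ℝ)
          < 2 * (G.edgeSet.ncard : ℝ) / (2 * (k : ℝ) - 1) := by
  intro k hk
  obtain ⟨t, rfl⟩ : ∃ t, k = t + 3 := ⟨k - 3, by omega⟩
  set m : ℕ := 2 * t * t + 6 * t + 3 with hm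
  have hcard : (star m).edgeSet.ncard = m := by
    rw [edgeSet_star, Set.ncard_image_of_injective _ (inj m)]
    simp
  refine ⟨Option (Fin m), inferInstance, star m, ?_, ?_⟩
  · rw [hcard, Nat.choose_two_right, hm]
    apply Nat.div_le_of_le_mul
    have : t + 3 - 1 = t + 2 := by omega
    rw [this]
    nlinarith
  · intro c
    have hp : ∃ i ∈ (Finset.univ.erase (c none)),
        (Finset.univ.filter (fun j : Fin m => c (some j) = i)).card ≤ 2 * t + 1 := by
      by_contra hcon
      push Not at hcon
      have h1 : ∑ i ∈ (Finset.univ.erase (c none)), (2 * t + 2) ≤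
          ∑ i ∈ (Finset.univ.erase (c none)),
            (Finset.univ.filter (fun j : Fin m => c (some j) = i)).card :=
        Finset.sum_le_sum (fun i hi => hcon i hi)
      have h2 : ∑ i ∈ (Finset.univ.erase (c none)),
            (Finset.univ.filter (fun j : Fin m => c (some j) = i)).card ≤
          ∑ i : Fin (t + 3), (Finset.univ.filter (fun j : Fin m => c (some j) = i)).card :=
        Finset.sum_le_sum_of_subset (Finset.subset_univ _)
      have h3 : ∑ i : Fin (t + 3), (Finset.univ.filter (fun j : Fin m => c (some j) = i)).card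
          = m := by
        rw [← Finset.card_eq_sum_card_fiberwise (f := fun j : Fin m => c (some j))
          (s := Finset.univ) (t := Finset.univ) (fun _ _ => Finset.mem_univ _)]
        simp
      rw [Finset.sum_const, Finset.card_erase_of_mem (Finset.mem_univ _)] at h1
      simp only [Finset.card_univ, Fintype.card_fin, smul_eq_mul] at h1
      have : t + 3 - 1 = t + 2 := by omega
      rw [this] at h1
      nlinarith
    obtain ⟨i, hi, hle⟩ := hp
    refine ⟨i, ?_⟩
    rw [meet_star m _ c i (Finset.ne_of_mem_erase hi), Set.ncard_image_of_injective _ (inj m),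
      hcard]
    have e : ({j : Fin m | c (some j) = i} : Set (Fin m)).ncard
        = (Finset.univ.filter (fun j : Fin m => c (some j) = i)).card := by
      rw [← Set.ncard_coe_finset]
      congr 1
      ext j
      simp
    rw [e]
    have hle' : ((Finset.univ.filter (fun j : Fin m => c (some j) = i)).card : ℝ)
        ≤ 2 * (t : ℝ) + 1 := by exact_mod_cast hle
    have ht : (0 : ℝ) ≤ t := Nat.cast_nonneg t
    have hpos : (0 : ℝ) < 2 * ((t + 3 : ℕ) : ℝ) - 1 := by push_cast; linarith
    have hm' : (m : ℝ) = 2 * t * t + 6 * t + 3 := by rw [hm]; push_cast; ring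
    rw [lt_div_iff₀ hpos, hm']
    push_cast
    nlinarith

end Pool.Agent.Results.MP_f151b7_co.Star
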